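import Pool.Agent.NGP.Stmts
import Pool.Agent.Helper51_PQP.TA3

/-!
# Squad NGP, row TAI: Taylor formula in a symmetry class (proof: helper49, after TA3 of helper51)
-/

set_option autoImplicit false

open scoped InnerProductSpace Topology ContDiff Manifold
open MeasureTheory Filter Set

noncomputable section

namespace Pool.Agent.NGP.H49

open Pool.Agent.Helper42_Paneitz Pool.Agent.Helper82_Vir Pool.Agent.FLX Pool.Agent.PQP
open Pool.Agent.PQP.H51

theorem radialExt_act (R : E5 ≃ₗᵢ[ℝ] E5) {f : S4 → ℝ} (hf : ∀ x, f (act R x) = f x) (y : E5) :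
    radialExt f (R y) = radialExt f y := by
  unfold radialExt
  by_cases hy : y = 0
  · subst hy
    simp
  · have hRy : R y ≠ 0 := fun h => hy (by simpa using h)
    rw [dif_pos hRy, dif_pos hy, ← hf ⟨‖y‖⁻¹ • y, normalize_mem hy⟩]
    congr 1
    apply Subtype.ext
    rw [act_coe]
    show ‖R y‖⁻¹ • R y = R (‖y‖⁻¹ • y)
    rw [R.norm_map, map_smul]

/-- The Hessian at a fixed point of a symmetry. -/
theorem hess_act (R : E5 ≃ₗᵢ[ℝ] E5) {f : S4 → ℝ} (hs : Sm f) (hf : ∀ x, f (act R x) = f x)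
    (p : S4) (hp : R (p : E5) = p) (u v : E5) : hess f p (R u) (R v) = hess f p u v := by
  set g : E5 → ℝ := radialExt f with hg
  set Rc : E5 →L[ℝ] E5 := (R.toContinuousLinearEquiv : E5 →L[ℝ] E5) with hRc
  have hRcv : ∀ x, Rc x = R x := fun x => rfl
  have hgR : g ∘ R.toContinuousLinearEquiv = g := by
    funext y
    exact radialExt_act R hf y
  set G : E5 → (E5 →L[ℝ] ℝ) := fderiv ℝ g with hG
  set Φ : (E5 →L[ℝ] ℝ) →L[ℝ] (E5 →L[ℝ] ℝ) := (ContinuousLinearMap.compL ℝ E5 E5 ℝ).flip Rc with hΦ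
  have hΦv : ∀ A : E5 →L[ℝ] ℝ, Φ A = A.comp Rc := fun A => rfl
  have hGR : ∀ y, G y = Φ (G (R y)) := by
    intro y
    rw [hΦv]
    have h1 := R.toContinuousLinearEquiv.comp_right_fderiv (f := g) (x := y)
    rw [hgR] at h1
    exact h1
  have hdiff : HasFDerivAt G (fderiv ℝ G (p : E5)) (p : E5) := by
    have h1 : ContDiffAt ℝ ∞ g (p : E5) := hs _ (S4_ne_zero p)
    have h2 : ContDiffAt ℝ 1 (fderiv ℝ g) (p : E5) :=
      (h1.of_le two_le_infty).fderiv_right (by norm_num)
    exact (h2.differentiableAt (by norm_num)).hasFDerivAt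
  have h3 : HasFDerivAt (fun y => G (Rc y)) ((fderiv ℝ G (p : E5)).comp Rc) (p : E5) := by
    have h4 : HasFDerivAt G (fderiv ℝ G (p : E5)) (Rc (p : E5)) := by
      rw [hRcv, hp]
      exact hdiff
    exact h4.comp (p : E5) Rc.hasFDerivAt
  have h5 : HasFDerivAt (fun y => Φ (G (Rc y))) (Φ.comp ((fderiv ℝ G (p : E5)).comp Rc)) (p : E5) :=
    Φ.hasFDerivAt.comp (p : E5) h3
  have h6 : (fun y => Φ (G (Rc y))) = G := by
    funext y
    exact (hGR y).symm
  rw [h6] at h5
  have h7 := hdiff.unique h5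
  show fderiv ℝ G (p : E5) (R u) (R v) = fderiv ℝ G (p : E5) u v
  conv_rhs => rw [h7]
  rfl

theorem tai (hT : TawStmt) (hH : HswStmt) : TaiStmt := by
  intro P f p hf hinv hpP hnd
  obtain ⟨C, hC, hC'⟩ := hT f hf
  obtain ⟨hrad, htr⟩ := hH f p hf
  set B : E5 →L[ℝ] E5 →L[ℝ] ℝ := fderiv ℝ (fderiv ℝ (radialExt f)) (p : E5) with hB
  have hBh : ∀ u v : E5, B u v = hess f p u v := fun u v => rfl
  have hsym : ∀ u v : E5, B u v = B v u := fun u v => hess_symm hf p u v
  have hp0 : ∀ v : E5, B (p : E5) v = 0 := by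
    intro v
    rw [hBh, hrad v, hnd.1 v, neg_zero]
  have hp0' : ∀ v : E5, B v (p : E5) = 0 := fun v => by rw [hsym, hp0]
  have hTp : opOf B (p : E5) = 0 := by
    rw [opOf_apply]
    refine Finset.sum_eq_zero fun i _ => ?_
    rw [hp0, zero_smul]
  have hfix : ∀ v ∈ P, P.reflection v = v := fun v hv => P.reflection_eq_self_iff v |>.mpr hv
  refine ⟨opOf B, C, hC, ?_, hTp, ?_, ?_, ?_, ?_⟩
  · intro u v
    rw [opOf_inner, real_inner_comm, opOf_inner, hsym]
  · intro v hv
    rw [← P.reflection_eq_self_iff]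
    refine ext_inner_right ℝ fun w => ?_
    have h1 : ⟪P.reflection (opOf B v), w⟫_ℝ = ⟪opOf B v, P.reflection w⟫_ℝ := by
      rw [← P.reflection.inner_map_map (opOf B v) (P.reflection w), P.reflection_reflection]
    rw [h1, opOf_inner, opOf_inner, hBh, hBh]
    have h2 := hess_act P.reflection hf hinv p (hfix _ hpP) v w
    rw [hfix v hv] at h2
    exact h2
  · intro v hvP hv h0
    refine hnd.2 v hvP hv fun w _ _ => ?_
    rw [← hBh, ← opOf_inner, h0, inner_zero_left]
  · rw [← htr]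
    unfold tr5
    refine Finset.sum_congr rfl fun i _ => ?_
    rw [opOf_inner, hBh]
  · intro z
    have h := hC' p z
    have h1 : ⟪opOf B (z : E5), (z : E5)⟫_ℝ =
        hess f p ((z : E5) - (p : E5)) ((z : E5) - (p : E5)) := by
      rw [opOf_inner, ← hBh]
      have e1 : B ((z : E5) - (p : E5)) ((z : E5) - (p : E5)) =
          B (z : E5) (z : E5) - B (z : E5) (p : E5) - (B (p : E5) (z : E5) - B (p : E5) (p : E5)) := by
        simp only [map_sub, _root_.sub_apply]
        ring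
      rw [e1, hp0, hp0, hp0']
      ring
    rw [h1]
    rw [hnd.1, sub_zero] at h
    exact h

end Pool.Agent.NGP.H49
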